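import Pool.Agent.ANI.Stmts2
import Pool.Agent.Helper72_ANI.SYF

/-!
# ANI, the sharp lower bound of the first form

`κ² Dl K₀ ≥ (1 - T^(ε/8)) κ g (f - h)² + c T^(ε-1) |∇h|²`: the local part has the constant `1 - T^(ε/8)`.
-/

set_option autoImplicit false

open MeasureTheory ProbabilityTheory Function Filter

open scoped ENNReal BigOperators Topology NNReal ComplexOrder Matrix

noncomputable section

namespace Pool.Agent.ANI.H96

open Pool.Agent.Anderson hiding box mem_box card_box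
open Pool.Agent.Loc Pool.Agent.Mob Pool.Agent.Helper54.Bal
  Pool.Agent.Helper96.EXP Pool.Agent.BED
open Pool.Agent.LE Pool.Agent.LE.MN Pool.Agent.LE.CL Pool.Agent.LE.IR Pool.Agent.LE.QD
  Pool.Agent.LE.QF
open Pool.Agent.ANI

variable {d M : ℕ} [NeZero M]

/-- logarithms against small powers -/
theorem log_small (K b ε : ℝ) (hK : 1 ≤ K) (hb : 0 < b) (hε : 0 < ε) :
    ∃ w0 : ℝ, 0 < w0 ∧ w0 ≤ 1 ∧ ∀ w : ℝ, 0 < w → w ≤ w0 →
      2 * (K * (1 + Real.log (1 / w))) * w ^ ε ≤ b := by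
  have hD : 0 < 2 * K * (1 + 2 / ε) := by positivity
  have hβ : 0 < b / (2 * K * (1 + 2 / ε)) := by positivity
  refine ⟨min 1 ((b / (2 * K * (1 + 2 / ε))) ^ (2 / ε)), ?_, min_le_left _ _, ?_⟩
  · exact lt_min one_pos (Real.rpow_pos_of_pos hβ _)
  intro w hw hw0
  have hw1 : w ≤ 1 := hw0.trans (min_le_left _ _)
  have hw2 : w ≤ (b / (2 * K * (1 + 2 / ε))) ^ (2 / ε) := hw0.trans (min_le_right _ _)
  have h1 : Real.log (1 / w) ≤ (1 / w) ^ (ε / 2) / (ε / 2) :=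
    Real.log_le_rpow_div (by positivity) (by positivity)
  have h2 : (1 / w) ^ (ε / 2) = w ^ (-(ε / 2)) := by
    rw [one_div, Real.inv_rpow hw.le, Real.rpow_neg hw.le]
  have h3 : (1 : ℝ) ≤ w ^ (-(ε / 2)) := by
    rw [← h2]
    apply Real.one_le_rpow
    · rw [one_le_div hw]; exact hw1
    · positivity
  have h4 : 1 + Real.log (1 / w) ≤ (1 + 2 / ε) * w ^ (-(ε / 2)) := by
    rw [h2] at h1
    have h5 : w ^ (-(ε / 2)) / (ε / 2) = 2 / ε * w ^ (-(ε / 2)) := by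
      field_simp
    rw [h5] at h1
    linarith
  have h6 : w ^ (-(ε / 2)) * w ^ ε = w ^ (ε / 2) := by
    rw [← Real.rpow_add hw]
    congr 1
    ring
  have h7 : w ^ (ε / 2) ≤ b / (2 * K * (1 + 2 / ε)) := by
    have h8 := Real.rpow_le_rpow hw.le hw2 (by positivity : (0 : ℝ) ≤ ε / 2)
    rw [← Real.rpow_mul hβ.le] at h8
    have h9 : 2 / ε * (ε / 2) = 1 := by
      field_simp
    rwa [h9, Real.rpow_one] at h8
  have hwe : 0 < w ^ ε := Real.rpow_pos_of_pos hw _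
  calc 2 * (K * (1 + Real.log (1 / w))) * w ^ ε
      ≤ 2 * (K * ((1 + 2 / ε) * w ^ (-(ε / 2)))) * w ^ ε := by
        apply mul_le_mul_of_nonneg_right _ hwe.le
        apply mul_le_mul_of_nonneg_left _ (by norm_num)
        exact mul_le_mul_of_nonneg_left h4 (by linarith)
    _ = (2 * K * (1 + 2 / ε)) * (w ^ (-(ε / 2)) * w ^ ε) := by ring
    _ = (2 * K * (1 + 2 / ε)) * w ^ (ε / 2) := by rw [h6]
    _ ≤ (2 * K * (1 + 2 / ε)) * (b / (2 * K * (1 + 2 / ε))) :=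
        mul_le_mul_of_nonneg_left h7 hD.le
    _ = b := by field_simp

/-- the symbol of the Laplacian with sines -/
theorem ds_sin {d M : ℕ} [NeZero M] (p : Tor d M) :
    ds p = ∑ i, 4 * Real.sin (Real.pi * ((p i).valMinAbs : ℝ) / M) ^ 2 := by
  unfold ds
  refine Finset.sum_congr rfl fun i _ => ?_
  have h : 2 * Real.pi * ((p i).valMinAbs : ℝ) / M = 2 * (Real.pi * ((p i).valMinAbs : ℝ) / M) := by
    ring
  rw [h, Real.cos_two_mul, Real.sin_sq]
  ring

theorem ds_nonneg {d M : ℕ} [NeZero M] (p : Tor d M) : 0 ≤ ds p := by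
  rw [ds_sin]
  exact Finset.sum_nonneg fun i _ => by positivity


/-- from the symbols to the form: `h` is the multiplier `al/(al + be ds)` of `f` -/
theorem slb0 (hFmu : FmuStmt) (hKft : KftStmt) (ζ : ℂ) (al be : ℝ) (hζ : 0 < ζ.im)
    (hal : 0 < al) (hbe : 0 < be)
    (H : ∀ p : Tor d M, al * (be * ds p) / (al + be * ds p) ≤
      ζ.im ^ 2 * (kf ζ (0 : Tor d M) - kf ζ p)) (f : Tor d M → ℝ) :
    ∃ h : Tor d M → ℝ, al * ∑ x, (f x - h x) ^ 2 +
      be * ∑ x, ∑ i, (h (x + Pi.single i 1) - h x) ^ 2 ≤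
        ζ.im ^ 2 * qf (Dl (KK (rs (0 : Tor d M → ℝ) ζ))) f := by
  have hds : ∀ p : Tor d M, 0 ≤ ds p := Pool.Agent.LE.QF.H49.ds_nonneg
  have hdsn : ∀ p : Tor d M, ds (-p) = ds p := Pool.Agent.LE.QF.H49.ds_neg
  obtain ⟨s, hs⟩ : ∃ s : Tor d M → ℝ, s = fun p => al / (al + be * ds p) := ⟨_, rfl⟩
  obtain ⟨s', hs'⟩ : ∃ s' : Tor d M → ℝ, s' = fun p => 1 - s p := ⟨_, rfl⟩
  have hsn : ∀ p, s (-p) = s p := fun p => by rw [hs]; simp only [hdsn]
  have hsn' : ∀ p, s' (-p) = s' p := fun p => by rw [hs']; simp only [hsn]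
  have hds1 : ∀ p : Tor d M, 0 < al + be * ds p := fun p => by
    have := hds p
    positivity
  have m3 : ∀ s s' : Tor d M → ℝ, (∀ p, s (-p) = s p) → (∀ p, s' (-p) = s' p) →
      mlt s * mlt s' = mlt fun p => s p * s' p := fun s s' h h' => (hFmu d M s s' h h').2.2.1
  have m2 : ∀ s : Tor d M → ℝ, (∀ p, s (-p) = s p) → ∀ x y, mlt s x y = mlt s y x :=
    fun s h => (hFmu d M s s h h).2.1
  have m1 : ∀ s : Tor d M → ℝ, (∀ p, s (-p) = s p) → ∀ f : Tor d M → ℝ, qf (mlt s) f =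
      pm fun p => s p * ‖ft (fun x => (f x : ℂ)) p‖ ^ 2 := fun s h => (hFmu d M s s h h).1
  have m4 := (hFmu d M s' s hsn' hsn).2.2.2.1
  have m6 := (hFmu d M s' s hsn' hsn).2.2.2.2.2.1
  have h1 : (fun p => s' p + s p) = fun _ : Tor d M => (1 : ℝ) := by
    funext p
    rw [hs']
    ring
  rw [h1, m6] at m4
  have h2 : ∀ x, f x - (mlt s *ᵥ f) x = (mlt s' *ᵥ f) x := by
    intro x
    have h3 : (1 : Matrix (Tor d M) (Tor d M) ℝ) *ᵥ f = mlt s' *ᵥ f + mlt s *ᵥ f := by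
      rw [m4, Matrix.add_mulVec]
    rw [Matrix.one_mulVec] at h3
    have h4 := congrFun h3 x
    rw [Pi.add_apply] at h4
    linarith
  refine ⟨mlt s *ᵥ f, ?_⟩
  have e1 : ∑ x, (f x - (mlt s *ᵥ f) x) ^ 2 =
      pm fun p => s' p * s' p * ‖ft (fun x => (f x : ℂ)) p‖ ^ 2 := by
    rw [Finset.sum_congr rfl fun x _ => by rw [h2 x], ← Pool.Agent.LE.QF.H49.qf_one,
      H72.qf_conj (m2 s' hsn'), mul_one, m3 s' s' hsn' hsn', m1]
    intro p
    rw [hsn']
  have e2 : ∑ x, ∑ i, ((mlt s *ᵥ f) (x + Pi.single i 1) - (mlt s *ᵥ f) x) ^ 2 =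
      pm fun p => s p * ds p * s p * ‖ft (fun x => (f x : ℂ)) p‖ ^ 2 := by
    rw [H72.lat hFmu, ← m1 ds hdsn, H72.qf_conj (m2 s hsn), m3 s ds hsn hdsn,
      m3 (fun p => s p * ds p) s (fun p => by rw [hsn, hdsn]) hsn, m1]
    intro p
    rw [hsn, hdsn]
  rw [e1, e2, H72.dlk hFmu hKft hζ]
  have e3 : al * (pm fun p : Tor d M => s' p * s' p * ‖ft (fun x => (f x : ℂ)) p‖ ^ 2) +
      be * (pm fun p : Tor d M => s p * ds p * s p * ‖ft (fun x => (f x : ℂ)) p‖ ^ 2) =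
      pm fun p : Tor d M => (al * (s' p * s' p) + be * (s p * ds p * s p)) *
        ‖ft (fun x => (f x : ℂ)) p‖ ^ 2 := by
    unfold pm
    rw [mul_div_assoc', mul_div_assoc', ← add_div, Finset.mul_sum, Finset.mul_sum,
      ← Finset.sum_add_distrib]
    congr 1
    refine Finset.sum_congr rfl fun p _ => ?_
    ring
  have e4 : ζ.im ^ 2 * (pm fun p : Tor d M => (kf ζ (0 : Tor d M) - kf ζ p) *
      ‖ft (fun x => (f x : ℂ)) p‖ ^ 2) =
      pm fun p : Tor d M => ζ.im ^ 2 * (kf ζ (0 : Tor d M) - kf ζ p) *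
        ‖ft (fun x => (f x : ℂ)) p‖ ^ 2 := by
    unfold pm
    rw [mul_div_assoc', Finset.mul_sum]
    congr 1
    refine Finset.sum_congr rfl fun p _ => ?_
    ring
  rw [e3, e4]
  refine H72.pm_mono fun p => ?_
  have h5 : al * (s' p * s' p) + be * (s p * ds p * s p) =
      al * (be * ds p) / (al + be * ds p) := by
    rw [hs', hs]
    have := (hds1 p).ne'
    field_simp
    ring
  rw [h5]
  exact mul_le_mul_of_nonneg_right (H p) (by positivity)

/-- the inequality of the symbols -/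
theorem slb1 (b ε cs Ck : ℝ) (hb : 0 < b) (hε : 0 < ε) (hε1 : ε ≤ 1 / 2) (hcs : 0 < cs)
    (hCk : 1 ≤ Ck) (d : ℕ) :
    ∃ c : ℝ, 0 < c ∧ c ≤ 1 / 2 ∧ ∀ (M : ℕ) [NeZero M] (E η T : ℝ) (m ζ : ℂ),
      ζ = ⟨E, η⟩ + (T : ℂ) * m → 0 < η → η ≤ T → T ≤ c → b ≤ m.im → m.im ≤ 1 / b →
      kf ζ (0 : Tor d M) = m.im / ζ.im →
      (∀ p : Tor d M,
        cs * (ds p / (ζ.im ^ 2 + ds p)) * kf ζ (0 : Tor d M) ≤ kf ζ (0 : Tor d M) - kf ζ p) →
      (∀ (p : Tor d M) (i : Fin d), |kf ζ p| ≤ Ck * (1 + Real.log (1 / ζ.im)) / ζ.im *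
        Real.sqrt (ζ.im / (ζ.im + |Real.sin (Real.pi * ((p i).valMinAbs : ℝ) / M)|))) →
      ∀ p : Tor d M, (1 - T ^ (ε / 8)) * (ζ.im * m.im) * (c * T ^ (ε - 1) * ds p) /
        ((1 - T ^ (ε / 8)) * (ζ.im * m.im) + c * T ^ (ε - 1) * ds p) ≤
          ζ.im ^ 2 * (kf ζ (0 : Tor d M) - kf ζ p) := by
  set B : ℝ := 1 + 1 / b with hB
  have hB1 : 1 ≤ B := by rw [hB]; linarith [one_div_pos.2 hb]
  have hB0 : 0 < B := by linarith
  obtain ⟨w0, hw0, hw01, hlog⟩ := log_small (Ck * B) b (ε / 8) (by nlinarith) hb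
    (by positivity)
  set c₂ : ℝ := cs * b / ((4 * d + 1) * B) with hc₂
  have hc₂0 : 0 < c₂ := by positivity
  obtain ⟨c, hc0, hc1, hc2, hc3, hc4⟩ : ∃ c : ℝ, 0 < c ∧ c ≤ 1 / 2 ∧ c ≤ 1 / B ∧ c ≤ w0 / B ∧
      c ≤ c₂ := by
    refine ⟨min (min (1 / 2) (1 / B)) (min (w0 / B) c₂), ?_, ?_, ?_, ?_, ?_⟩
    · exact lt_min (lt_min (by norm_num) (by positivity)) (lt_min (by positivity) hc₂0)
    · exact (min_le_left _ _).trans (min_le_left _ _)
    · exact (min_le_left _ _).trans (min_le_right _ _)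
    · exact (min_le_right _ _).trans (min_le_left _ _)
    · exact (min_le_right _ _).trans (min_le_right _ _)
  refine ⟨c, hc0, hc1, ?_⟩
  intro M _ E η T m ζ hζ hη hηT hTc hm hm2 hk0 hsy hkk p
  have hT : 0 < T := hη.trans_le hηT
  have hT1 : T ≤ 1 := by linarith
  have hm0 : 0 < m.im := hb.trans_le hm
  have him : ζ.im = η + T * m.im := by
    rw [hζ]
    simp
  obtain ⟨κ, hκ⟩ : ∃ κ, κ = ζ.im := ⟨_, rfl⟩
  obtain ⟨g, hg⟩ : ∃ g, g = m.im := ⟨_, rfl⟩
  rw [← hκ, ← hg] at him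
  rw [← hκ] at hsy hkk
  rw [← hκ, ← hg] at hk0 ⊢
  rw [← hg] at hm hm2 hm0
  have hκ0 : 0 < κ := by rw [him]; positivity
  have hκT : κ ≤ B * T := by
    rw [him, hB]
    have : T * g ≤ T * (1 / b) := by gcongr
    nlinarith
  have hκ1 : κ ≤ 1 := by
    calc κ ≤ B * T := hκT
      _ ≤ B * (1 / B) := by
          have := hTc.trans hc2
          gcongr
      _ = 1 := by field_simp
  have hκw : κ ≤ w0 := by
    calc κ ≤ B * T := hκT
      _ ≤ B * (w0 / B) := by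
          have := hTc.trans hc3
          gcongr
      _ = w0 := by field_simp
  have hdp := ds_nonneg p
  have hTd : 0 < T ^ (ε / 8) := Real.rpow_pos_of_pos hT _
  have hTd1 : T ^ (ε / 8) < 1 := by
    apply Real.rpow_lt_one hT.le (by linarith) (by positivity)
  have hTe : 0 < T ^ (ε - 1) := Real.rpow_pos_of_pos hT _
  have hkg : 0 < κ * g := by positivity
  set al : ℝ := (1 - T ^ (ε / 8)) * (κ * g) with hal
  have hal0 : 0 < al := by
    rw [hal]
    have : 0 < 1 - T ^ (ε / 8) := by linarith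
    positivity
  set be : ℝ := c * T ^ (ε - 1) with hbe
  have hbe0 : 0 < be := by positivity
  have hden : 0 < al + be * ds p := by positivity
  by_cases hcase : ∃ i : Fin d, κ ^ (1 - ε / 2) ≤
      |Real.sin (Real.pi * ((p i).valMinAbs : ℝ) / M)|
  · -- large momenta
    obtain ⟨i, hi⟩ := hcase
    have h1 : al * (be * ds p) / (al + be * ds p) ≤ al := by
      rw [div_le_iff₀ hden]
      nlinarith
    refine h1.trans ?_
    have h2 := hkk p i
    have hl0 : 0 ≤ Real.log (1 / κ) := Real.log_nonneg (by rw [le_div_iff₀ hκ0]; linarith)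
    have hκe : 0 < κ ^ (1 - ε / 2) := Real.rpow_pos_of_pos hκ0 _
    have h3 : Real.sqrt (κ / (κ + |Real.sin (Real.pi * ((p i).valMinAbs : ℝ) / M)|)) ≤
        κ ^ (ε / 4) := by
      rw [show κ ^ (ε / 4) = Real.sqrt (κ ^ (ε / 2)) by
        rw [Real.sqrt_eq_rpow, ← Real.rpow_mul hκ0.le]
        congr 1
        ring]
      apply Real.sqrt_le_sqrt
      rw [div_le_iff₀ (by positivity)]
      have h4 : κ ^ (ε / 2) * κ ^ (1 - ε / 2) = κ := by
        rw [← Real.rpow_add hκ0]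
        simp
      have h5 : 0 < κ ^ (ε / 2) := Real.rpow_pos_of_pos hκ0 _
      nlinarith [mul_le_mul_of_nonneg_left hi h5.le]
    have h6 : kf ζ p ≤ Ck * (1 + Real.log (1 / κ)) / κ * κ ^ (ε / 4) := by
      refine (le_abs_self _).trans (h2.trans ?_)
      gcongr
    have h7 := hlog κ hκ0 hκw
    have h8 : κ ^ (ε / 8) ≤ B * T ^ (ε / 8) := by
      calc κ ^ (ε / 8) ≤ (B * T) ^ (ε / 8) := Real.rpow_le_rpow hκ0.le hκT (by positivity)
        _ = B ^ (ε / 8) * T ^ (ε / 8) := Real.mul_rpow hB0.le hT.le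
        _ ≤ B * T ^ (ε / 8) := by
            gcongr
            calc B ^ (ε / 8) ≤ B ^ (1 : ℝ) :=
                  Real.rpow_le_rpow_of_exponent_le hB1 (by linarith)
              _ = B := Real.rpow_one B
    have h9 : κ ^ (ε / 4) = κ ^ (ε / 8) * κ ^ (ε / 8) := by
      rw [← Real.rpow_add hκ0]
      congr 1
      ring
    have hκd : 0 < κ ^ (ε / 8) := Real.rpow_pos_of_pos hκ0 _
    have h10 : κ ^ 2 * kf ζ p ≤ κ * g * T ^ (ε / 8) := by
      calc κ ^ 2 * kf ζ p ≤ κ ^ 2 * (Ck * (1 + Real.log (1 / κ)) / κ * κ ^ (ε / 4)) := by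
            gcongr
        _ = κ * (Ck * (1 + Real.log (1 / κ)) * κ ^ (ε / 8)) * κ ^ (ε / 8) := by
            rw [h9]
            field_simp
        _ ≤ κ * (Ck * (1 + Real.log (1 / κ)) * κ ^ (ε / 8)) * (B * T ^ (ε / 8)) := by
            gcongr
        _ = κ * (Ck * B * (1 + Real.log (1 / κ)) * κ ^ (ε / 8)) * T ^ (ε / 8) := by ring
        _ ≤ κ * g * T ^ (ε / 8) := by
            have h11 : Ck * B * (1 + Real.log (1 / κ)) * κ ^ (ε / 8) ≤ g := by
              have h12 : 0 ≤ Ck * B * (1 + Real.log (1 / κ)) * κ ^ (ε / 8) := by positivity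
              nlinarith
            gcongr
    have h12 : κ ^ 2 * (g / κ) = κ * g := by
      field_simp
    rw [mul_sub, hk0, h12, hal]
    nlinarith
  · -- small momenta
    push Not at hcase
    have h1 : al * (be * ds p) / (al + be * ds p) ≤ be * ds p := by
      rw [div_le_iff₀ hden]
      have : 0 ≤ be * ds p := by positivity
      nlinarith
    refine h1.trans ?_
    have hκe : 0 < κ ^ (1 - ε / 2) := Real.rpow_pos_of_pos hκ0 _
    have h2 : ds p ≤ 4 * d * κ ^ (2 - ε) := by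
      rw [ds_sin]
      have h3 : κ ^ (2 - ε) = (κ ^ (1 - ε / 2)) ^ 2 := by
        rw [← Real.rpow_natCast, ← Real.rpow_mul hκ0.le]
        congr 1
        push_cast
        ring
      calc ∑ i, 4 * Real.sin (Real.pi * ((p i).valMinAbs : ℝ) / M) ^ 2
          ≤ ∑ _i : Fin d, 4 * (κ ^ (1 - ε / 2)) ^ 2 := by
            refine Finset.sum_le_sum fun i _ => ?_
            have h4 := (hcase i).le
            rw [← sq_abs]
            gcongr
        _ = 4 * d * κ ^ (2 - ε) := by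
            rw [Finset.sum_const, Finset.card_univ, Fintype.card_fin, nsmul_eq_mul, h3]
            ring
    have hκ2 : κ ^ 2 ≤ κ ^ (2 - ε) := by
      rw [← Real.rpow_natCast]
      exact Real.rpow_le_rpow_of_exponent_ge hκ0 hκ1 (by push_cast; linarith)
    have h3 : κ ^ 2 + ds p ≤ (4 * d + 1) * κ ^ (2 - ε) := by linarith
    have h4 := hsy p
    rw [hk0] at h4
    have hke : 0 < κ ^ (2 - ε) := Real.rpow_pos_of_pos hκ0 _
    have h5 : ds p / ((4 * d + 1) * κ ^ (2 - ε)) ≤ ds p / (κ ^ 2 + ds p) := by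
      gcongr
    have h6 : cs * (ds p / ((4 * d + 1) * κ ^ (2 - ε))) * (g / κ) ≤
        kf ζ (0 : Tor d M) - kf ζ p := by
      rw [hk0]
      refine le_trans ?_ h4
      gcongr
    have h7 : T ^ (ε - 1) ≤ B * κ ^ (ε - 1) := by
      have h8 : (B * T) ^ (ε - 1) ≤ κ ^ (ε - 1) :=
        Real.rpow_le_rpow_of_nonpos hκ0 hκT (by linarith)
      rw [Real.mul_rpow hB0.le hT.le] at h8
      have h9 : B ^ (-1 : ℝ) ≤ B ^ (ε - 1) :=
        Real.rpow_le_rpow_of_exponent_le hB1 (by linarith)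
      rw [Real.rpow_neg_one] at h9
      have h10 : B⁻¹ * T ^ (ε - 1) ≤ κ ^ (ε - 1) := by
        refine le_trans ?_ h8
        gcongr
      rw [inv_mul_le_iff₀ hB0] at h10
      exact h10
    have h8 : κ ^ 2 * (1 / κ ^ (2 - ε) * (1 / κ)) = κ ^ (ε - 1) := by
      have e1 : κ ^ (ε - 1) = κ ^ (2 : ℝ) * κ ^ (-(2 - ε)) * κ ^ (-1 : ℝ) := by
        rw [← Real.rpow_add hκ0, ← Real.rpow_add hκ0]
        congr 1
        ring
      rw [e1, Real.rpow_neg hκ0.le, Real.rpow_neg_one, Real.rpow_two]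
      simp only [one_div]
      ring
    calc be * ds p ≤ c₂ * (B * κ ^ (ε - 1)) * ds p := by
          rw [hbe]
          gcongr
      _ = cs * b / (4 * d + 1) * κ ^ (ε - 1) * ds p := by
          rw [hc₂]
          field_simp
      _ ≤ cs * g / (4 * d + 1) * κ ^ (ε - 1) * ds p := by
          have : 0 < κ ^ (ε - 1) := Real.rpow_pos_of_pos hκ0 _
          gcongr
      _ = κ ^ 2 * (cs * (ds p / ((4 * d + 1) * κ ^ (2 - ε))) * (g / κ)) := by
          rw [← h8]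
          field_simp
      _ ≤ _ := by gcongr

theorem slb (hFmu : FmuStmt) (hKft : KftStmt) : SlbStmt := by
  intro d b ε cs Ck hd hb hε hε1 hcs hCk
  obtain ⟨c, hc0, hc1, H⟩ := slb1 b (8 * ε) cs Ck hb (by linarith) (by linarith) hcs hCk d
  refine ⟨c, hc0, hc1, ?_⟩
  intro M _ E η T m ζ hζ hη hηT hTc hm hm2 hrs hsy hkk f
  have hT : 0 < T := hη.trans_le hηT
  have hm0 : 0 < m.im := hb.trans_le hm
  have him : ζ.im = η + T * m.im := by
    rw [hζ]
    simp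
  have hw0 : 0 < ζ.im := by rw [him]; positivity
  obtain ⟨-, -, -, -, -, f6⟩ := hKft d M ζ hw0
  have hkf : kf ζ (0 : Tor d M) = m.im / ζ.im := by
    rw [f6, hrs]
  have H1 := H M E η T m ζ hζ hη hηT hTc hm hm2 hkf hsy hkk
  have e1 : 8 * ε / 8 = ε := by ring
  simp only [e1] at H1
  rw [← him]
  have hT1 : T ^ ε < 1 := Real.rpow_lt_one hT.le (by linarith) hε
  have hal : 0 < (1 - T ^ ε) * (ζ.im * m.im) := by
    have : 0 < 1 - T ^ ε := by linarith
    positivity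
  have hbe : 0 < c * T ^ (8 * ε - 1) := by
    have : 0 < T ^ (8 * ε - 1) := Real.rpow_pos_of_pos hT _
    positivity
  exact slb0 hFmu hKft ζ _ _ hw0 hal hbe H1 f

end Pool.Agent.ANI.H96
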